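import Pool.Agent.Q36.GP.Cp
import Pool.Agent.Q36.GV.Uw

/-!
# The dichotomy of the minimal model conjecture for varieties dominated by products of varieties

Let `W 1, ..., W s` be projective manifolds of dimensions `d i` over an algebraically closed field of
characteristic zero (for instance the complex numbers), each of them one of the following:

* uniruled (for instance a rational curve),
* a manifold with `ν ≤ a i`, whose canonical map has an image of dimension at least `a i ≥ 0`; then let
  `c i = 0`, or more generally let the canonical forms separate `c i + 1` points and tangent vectors in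
  an open set,
* a curve of gonality at least `c i + 2`, and `a i = 1`, or `a i = 0` if it is elliptic.

Let `W 1 × ... × W s ⇢ X` be any dominant rational map of finite degree to a projective manifold `X`. The
map need not be a quotient by a group, and nothing is assumed about `X`. For a general point `x` of `X`
let `r_i` be the number of different `i`-th coordinates of the points over `x`, and for a set `Q` of
indices let `r(Q)` be the number of the points over `x` which have the same `j`-th coordinates as a
given one of them for all `j` outside `Q`. Assume that

* `2 r_i ≤ c i + 1` for all `i` in some set `B` (which may be empty), and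
* for all `Q` disjoint from `B`: `r(Q) = 1`, or `2 r(Q) - 1 ≤ ∑ j ∈ Q, c j`.

The theorem: either

* some `W i` is uniruled, `X` is uniruled and `K_X` is not pseudo-effective; then `X` has a Mori fibre
  space (case (b) of the conjecture) by the theorem of Birkar, Cascini, Hacon and McKernan; or
* no `W i` is uniruled, `X` is not uniruled, `K_X` is pseudo-effective, and `κ(X) = ν(X) = ∑ a i`, which
  is the dimension of the canonical image of `X`; then `X` has a minimal model (case (a)), even a good
  one, by the theorem of Gongyo and Lehmann.

Proof: exterior products of canonical forms of the factors are canonical forms of the product, and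
their traces are canonical forms of `X`. If a vector field of `X` kills all their quotients, there is a
relation between the values and the derivatives of the forms on the factors at the points of a
general fibre. Hall's theorem on the marriage problem and the separation properties of the canonical
forms of the factors are used to isolate one point of the fibre and one factor in this relation. The
upper bound: with the extensions of the places of `V` and of `W` to a product `V × W` it is shown that
the coefficients of a section on `V × W` (with respect to functions on one factor) are sections on the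
other factor.
-/

set_option autoImplicit false
set_option linter.overlappingInstances false

open FF IntermediateField Pool.Agent.W619.PQ Pool.Agent.W619.PL Pool.Agent.W619.TW
  Pool.Agent.W619.X Pool.Agent.W619.Y

namespace Pool.Agent.Results.MP_fa3f7f_ag.DichotomyOfProducts

/-- Every nonconstant function on the curve with function field `F` has degree at least `γ`. -/
def GonalityGe (k F : Type) [Field k] [Field F] [Algebra k F] (γ : ℕ) : Prop :=
  ∀ b : F, Transcendental k b → γ ≤ Module.finrank k⟮b⟯ F

/-- The canonical map of the projective manifolds of dimension `n` with function field `K` has an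
image of dimension at least `h`: there are `h + 1` canonical forms whose ratios to the first one are
algebraically independent. For `h = 0`: `p_g > 0`. -/
def CanonicalImageGe (k K : Type) [Field k] [Field K] [Algebra k K] (n h : ℕ) : Prop :=
  ∃ ω : Fin (h + 1) → (Fin n → Derivation k K K) → K,
    (∀ l, IsSec k K n (fun _ => False) {1} 1 0 (ω l)) ∧
    ∃ D, (∀ l, ω l D ≠ 0) ∧ AlgebraicIndependent k (fun l : Fin h => ω l.succ D / ω 0 D)

/-- The coefficients of the canonical forms of the projective manifold of dimension `d` with function
field `K`, with respect to the rational vector fields `E`. -/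
def canonicalForms (k : Type) {K : Type} [Field k] [Field K] [Algebra k K] (d : ℕ)
    (E : Fin d → Derivation k K K) : Set K :=
  {f | ∃ η : (Fin d → Derivation k K K) → K, IsPluriForm k K d 1 η ∧
    (∀ u : Place k K, IsDivisorial u d → RegularAt u d η) ∧ η E = f}

/-- The canonical forms of the manifold with function field `K` separate `m` points and tangent
vectors in an open set: let `φ i` be different generic points, with coordinates in a field `Ω`, with
multiplicities `1` or `2` of sum at most `m`, and `θ i` tangent vectors at the points of multiplicity
`2`; then the values at the `φ i` are linearly independent of each other and of the derivatives in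
the directions `θ i ≠ 0`. (For the coefficients with respect to a frame `E`; this does not depend on
the choice of the frame.) -/
def Separates (k K : Type) [Field k] [Field K] [Algebra k K] (d m : ℕ) : Prop :=
  ∀ (y : Fin d → K) (E : Fin d → Derivation k K K), IsTranscendenceBasis k y →
    (∀ i j, E i (y j) = if i = j then 1 else 0) →
    ∀ (Ω : Type) [Field Ω] [Algebra k Ω] (ι : Type) [Fintype ι] (φ : ι → (K →ₐ[k] Ω)) (μ : ι → ℕ)
      (c : ι → Ω) (θ : ι → (K →ₗ[k] Ω)), Function.Injective φ → (∀ i, μ i = 1 ∨ μ i = 2) →
      ∑ i, μ i ≤ m → (∀ i, ∀ a b, θ i (a * b) = φ i a * θ i b + φ i b * θ i a) →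
      (∀ i, μ i = 1 → θ i = 0) →
      (∀ f ∈ canonicalForms k d E, ∑ i, (c i * φ i f + θ i f) = 0) → ∀ i, c i = 0 ∧ θ i = 0

/-- A factor, with function field `W` and dimension `d`, and the numbers `a` and `c`, is one of the
following: a manifold with a canonical image of dimension at least `a` and with `ν ≤ a`, where `c = 0`
or the canonical forms separate `c + 1` points and tangent vectors; or a curve of gonality at least
`c + 2`, which is elliptic and `a = 0`, or not elliptic and `a = 1`. -/
def IsFactor {k M : Type} [Field k] [Field M] [Algebra k M] (W : IntermediateField k M)
    (d a c : ℕ) : Prop :=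
  (CanonicalImageGe k W d a ∧ NumLe k W d (fun _ => False) a ∧
    (c = 0 ∨ Separates k W d (c + 1))) ∨
  (IsFF k W ∧ GonalityGe k W (c + 2) ∧
    ((IsElliptic W ∧ a = 0) ∨ (¬ IsElliptic W ∧ a = 1)))

section

variable {k : Type} (L : Type) {M : Type} [Field k] [Field L] [Field M] [Algebra k L] [Algebra k M]
  [Algebra L M]

/-- The number of different coordinates in the factor with function field `F` on a general fibre of
`Z ⇢ X`: the degree over `X` of the image of `Z` in the product of `X` and the factor. -/
noncomputable def coordinates (F : IntermediateField k M) : ℕ :=
  Module.finrank L (IntermediateField.adjoin L (F : Set M))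

/-- The number of the points of a general fibre of `Z ⇢ X` with the same coordinates outside `Q` as a
given one: the degree of `Z` over its image in the product of `X` and the factors `j ∉ Q`. -/
noncomputable def agreeing {s : ℕ} (W : Fin s → IntermediateField k M) (Q : Finset (Fin s)) : ℕ :=
  Module.finrank (IntermediateField.adjoin L {z : M | ∃ j, j ∉ Q ∧ z ∈ W j}) M

end

/-- **The dichotomy of the minimal model conjecture for varieties dominated by products.** Let `W i`
(`i < s`) be the function fields of projective manifolds of dimensions `d i` over an algebraically
closed field of characteristic zero, each of them uniruled or a factor with numbers `a i`, `c i` as in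
`IsFactor`: with `ν ≤ a i` and a canonical image of dimension at least `a i`, where `c i = 0` or the
canonical forms separate `c i + 1` points and tangent vectors, or a curve of gonality at least `c i + 2`.
Let `M` be the function field of the product, of dimension `∑ d i`, and `L` the function field of a
projective manifold `X` with a dominant rational map of finite degree from the product to `X`. Let `B`
be a set of indices such that twice the number of the `i`-th coordinates on a general fibre is at most
`c i + 1` for `i ∈ B`, and assume that for every set `Q` of indices disjoint from `B` the number `r(Q)`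
of the points of a general fibre with the same coordinates outside `Q` as a given one satisfies
`r(Q) = 1` or `2 r(Q) - 1 ≤ ∑ j ∈ Q, c j`.

Then either some `W i` is uniruled, `X` is uniruled, `K_X` is not pseudo-effective and `ν(X) = -∞`, or no
`W i` is uniruled, `X` is not uniruled, `K_X` is pseudo-effective, the canonical image of `X` has
dimension at least `∑ a i` and `ν(X) ≤ ∑ a i`, so that `κ(X) = ν(X) = ∑ a i`. -/
theorem result {k L M : Type} [Field k] [CharZero k] [IsAlgClosed k] [Field L] [Field M]
    [Algebra k L] [Algebra k M] [Algebra L M] [IsScalarTower k L M] [FiniteDimensional L M]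
    (s : ℕ) (d a c : Fin s → ℕ) (W : Fin s → IntermediateField k M)
    (hess : ∀ i, Algebra.EssFiniteType k (W i)) (hd : ∀ i, Algebra.trdeg k (W i) = d i)
    (hM : Algebra.trdeg k M = (∑ i, d i : ℕ)) (hsup : ⨆ i, W i = ⊤)
    (hW : ∀ i, IsUniruled k (W i) (d i) ∨ IsFactor (W i) (d i) (a i) (c i))
    (B : Finset (Fin s)) (hB : ∀ i ∈ B, 2 * coordinates L (W i) ≤ c i + 1)
    (hQ : ∀ Q : Finset (Fin s), Disjoint Q B →
      agreeing L W Q = 1 ∨ 2 * agreeing L W Q ≤ 1 + ∑ j ∈ Q, c j) :
    ((∃ i, IsUniruled k (W i) (d i)) ∧ IsUniruled k L (∑ i, d i) ∧
      ¬ IsPsef k L (∑ i, d i) (fun _ => False) ∧ NumNeg k L (∑ i, d i) (fun _ => False)) ∨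
    ((∀ i, ¬ IsUniruled k (W i) (d i)) ∧ ¬ IsUniruled k L (∑ i, d i) ∧
      IsPsef k L (∑ i, d i) (fun _ => False) ∧ CanonicalImageGe k L (∑ i, d i) (∑ i, a i) ∧
      NumLe k L (∑ i, d i) (fun _ => False) (∑ i, a i)) := by
  classical
  have hessM : Algebra.EssFiniteType k M := Q36.GV.ess_supW W hsup
  have hessL : Algebra.EssFiniteType k L := Q36.SD.ess_below (K := M)
  have hn : Algebra.trdeg k L = (∑ i, d i : ℕ) := Q36.SD.trdeg_below (K := M) hM
  by_cases hU : ∃ i, IsUniruled k (W i) (d i)
  · left
    have h1 := Q36.GV.uniruled_prodV (L := L) W hd hM hsup hU
    exact ⟨hU, h1, uniruled_neg _ hn h1⟩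
  · right
    push Not at hU
    have hg : ∀ i, Q36.GP.Gfac k (W i) (d i) (c i) (a i) := by
      intro i
      rcases (hW i).resolve_left (hU i) with ⟨h1, h2, h3⟩ | ⟨h1, h2, h3⟩
      · exact Q36.GP.gfac_var h3 h1 h2
      · have h4 := Q36.GP.gfac_curve (W i) (hd i) (c := c i) h2
        rcases h3 with ⟨h5, h6⟩ | ⟨h5, h6⟩
        · rw [if_pos h5] at h4
          rw [h6]
          exact h4
        · rw [if_neg h5] at h4
          rw [h6]
          exact h4
    obtain ⟨h3, h4⟩ := Q36.GP.imgP (L := L) W hd hM hsup hg B hB hQ
    have hpos : Q36.PT.PlurigenusPos k L (∑ i, d i) 1 := by
      obtain ⟨ω, h5, D, h6, -⟩ := h3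
      exact ⟨ω 0, (Q36.GV.reg_of_sec (h5 0)).1, (Q36.GV.reg_of_sec (h5 0)).2, D, h6 0⟩
    have hpsef : IsPsef k L (∑ i, d i) (fun _ => False) := by
      by_contra h5
      exact Q36.PT.not_neg_of_pos le_rfl hpos
        (kodairaNeg_of_not_eff.1 fun h6 => h5 (psef_of_eff h6))
    exact ⟨hU, fun h5 => (uniruled_neg _ hn h5).1 hpsef, hpsef, h3, h4⟩

end Pool.Agent.Results.MP_fa3f7f_ag.DichotomyOfProducts
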