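import Pool.Agent.Q57.GG.TopA

/-!
# The geography of the models of covers of projective space branched along normal crossings

Let `F k`, `k = 0, ..., n`, be forms of degrees `d k` in `n + 1` variables whose zero sets in the
projective `n`-space are smooth hypersurfaces with normal crossings, and `∑ k, d k ≥ n + 1`. Let `K`
be the function field of an abelian cover of the projective space which is branched only along these
hypersurfaces: `K` is generated by the affine coordinates and by roots `z j`,
`z j ^ (m j) = ∏ k, (F k (x) / x 0 ^ (d k)) ^ (a j k)`, where `m j` divides `∑ k, a j k * d k`. (For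
`n ≥ 2` all finite covers which are branched only along these hypersurfaces are abelian; covers
which are branched along fewer hypersurfaces are included: add general hyperplanes, `a j k = 0`. If
`∑ k, d k ≤ n`, then `-(K + Δ)` is big for all the boundaries `Δ` which are considered here.)

A prime divisor `P` over the cover (a divisorial place of `K`) has the vector `multiplicities F d x P`
of the multiplicities `v k` of the hypersurfaces along `P`. The vectors `v ≠ 0` of nonnegative
integers, not all positive, with `m j ∣ ∑ k, a j k * v k` for all `j` are the `Admissible` ones.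

**The pairs.** The boundaries `Δ 1, ..., Δ p` are given by functions `c i`, with `c i ≤ 1`, on the
vectors: `- c i v` is the discrepancy of the pair `(X, Δ i)` along the divisors with the vector `v`.
So `c i v` is the coefficient of `Δ i` if `P` is a divisor on the variety. Examples are the toroidal
modifications `X` of the cover, given by a subdivision of the fan of the faces of the positive
orthant, with any divisors `Δ i = ∑ δ_{i, ρ} D_ρ` supported over the hypersurfaces with rational
coefficients `0 ≤ δ_{i, ρ} ≤ 1` (log canonical pairs), and the case `c i = 0`, that of the canonical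
divisor of a smooth model. See `MP_c1e25c_ag.AdjointRings`, where the pairs are the same and the ring
of the sections of the divisors `∑ i, μ i (K + Δ i)` is shown to be finitely generated.

**The theorem.** There are finitely many sections `ω b` of divisors `∑ i, g b i (K + Δ i)`,
`g b ∈ ℕ ^ p`, such that

* (orders) every section `η` of `∑ i, μ i (K + Δ i) + j A`, for any `μ ∈ ℕ ^ p`, `j` and any divisor
  `A`, has at every prime divisor `P` the order at least that of a monomial in the sections `ω b`
  whose degree is `μ`, up to an error `C (j + 1)`, where `C` depends only on `P` and `A`;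
* (the pseudo-effective cone) for real numbers `lam i ≥ 0` the divisor `∑ i, lam i (K + Δ i)` is
  pseudo-effective if and only if `lam` is a nonnegative combination of the degrees `g b`. So the
  cone of these `lam` is rational polyhedral, and these divisors are `ℝ`-linearly equivalent to
  effective ones, the combinations of the divisors of the `ω b`.

So the asymptotic order of vanishing (Nakayama's `σ_P`) of `D = ∑ i, lam i (K + Δ i)` is at each prime
divisor `P` over the cover the minimum of `∑ b, t b * ord_P (ω b)` over all real `t b ≥ 0` with
`∑ b, t b * g b = lam`. These functions of `lam` are piecewise linear, with only finitely many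
possibilities, given by the vectors `g b`, for the domains of linearity, although there are
infinitely many `P`: the pseudo-effective cone has a finite decomposition into rational polyhedral
cones on which all `σ_P` are linear. On a model where the base loci of the monomials in the `ω b`
are resolved the positive parts of all these `D` are semiample. This is the geography (finiteness) of
the models of the pairs `(X, Δ)`, `Δ` in the polytope of the `Δ i`, which contains the minimal models
and the steps of the minimal model program with scaling (on the segment from `K + Δ 1` to an ample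
`K + Δ 2` of this kind). It was known for klt pairs with big boundaries (Birkar, Cascini, Hacon,
McKernan; Cascini, Lazić; Corti, Lazić; Kaloghiros, Küronya, Lazić), and it is here proved for log
canonical pairs without any condition of bigness, in particular for the canonical divisors of
varieties which are not of general type.
-/

set_option autoImplicit false

open FF MvPolynomial Pool.Agent.W602.GT

namespace Pool.Agent.Results.MP_fa3f7f_ag.GeographyOfModels

/-- The hypersurfaces `F k = 0` have normal crossings: at every point of the projective space the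
gradients of the forms `F k` which vanish at this point are linearly independent. -/
def NormalCrossings {n : ℕ} (F : Fin (n + 1) → MvPolynomial (Fin (n + 1)) ℂ) : Prop :=
  ∀ x : Fin (n + 1) → ℂ, x ≠ 0 → LinearIndependent ℂ
    fun (k : {k // eval x (F k) = 0}) (l : Fin (n + 1)) => eval x (pderiv l (F k.1))

/-- The affine coordinates of the projective space. -/
noncomputable def affine {n : ℕ} {K : Type} [Field K] (x : Fin (n + 1) → K) (b : Fin n) : K :=
  x b.succ / x 0

section

variable {n R p : ℕ}

/-- The multiplicities which satisfy the divisibility conditions. -/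
def Admissible (m : Fin R → ℕ) (a : Fin R → Fin (n + 1) → ℕ) (v : Fin (n + 1) → ℕ) : Prop :=
  v ≠ 0 ∧ (∃ k, v k = 0) ∧ ∀ j, m j ∣ ∑ k, a j k * v k

/-- The functions `c i` are the functions of the coefficients of boundaries: they are at most one
(the pairs are log canonical), the boundaries are supported over the hypersurfaces, the log
discrepancies `1 - c i` are at most homogeneous along the rays, and for a finite set `T` of vectors
every admissible vector `v` is at least a nonnegative combination of the vectors in `T`, such that
all `1 - c i v` are at most the combinations of the values at the vectors in `T`. -/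
structure AreBoundaries (m : Fin R → ℕ) (a : Fin R → Fin (n + 1) → ℕ)
    (c : Fin p → (Fin (n + 1) → ℕ) → ℚ) : Prop where
  zero : ∀ i, c i 0 = 0
  le_one : ∀ i v, c i v ≤ 1
  ray : ∀ i v (r : ℕ), 1 ≤ r → Admissible m a v → 1 - c i (r • v) ≤ r * (1 - c i v)
  finite : ∃ T : Finset (Fin (n + 1) → ℕ), (∀ s ∈ T, Admissible m a s) ∧ ∀ v, Admissible m a v →
    ∃ w : (Fin (n + 1) → ℕ) → ℚ, (∀ s, 0 ≤ w s) ∧ (∀ k, ∑ s ∈ T, w s * s k ≤ v k) ∧
      ∀ i, 1 - c i v ≤ ∑ s ∈ T, w s * (1 - c i s)

variable {K : Type} [Field K] [Algebra ℂ K]

/-- The multiplicities of the hypersurfaces `F k = 0` along the prime divisor `P`; the `x j` are the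
homogeneous coordinates, which are divided by one of minimal order at `P`. -/
noncomputable def multiplicities (F : Fin (n + 1) → MvPolynomial (Fin (n + 1)) ℂ)
    (d : Fin (n + 1) → ℕ) (x : Fin (n + 1) → K) (P : Place ℂ K) (k : Fin (n + 1)) : ℕ :=
  (P.ord (aeval x (F k)) -
    d k * Finset.univ.inf' Finset.univ_nonempty fun j => P.ord (x j)).toNat

end

section sections

variable {K : Type} [Field K] [Algebra ℂ K] {p : ℕ} (N : ℕ) (δ : Fin p → Place ℂ K → ℚ)

/-- `ω` is a section of `∑ i, μ i (K + Δ i) + j A`: a rational section of the power of the canonical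
bundle with the exponent `∑ i, μ i` (`IsPluri`: a function of `N` rational vector fields which is
multiplied by the power of `det B` under a linear substitution `B`) whose order on the vector fields
which are regular at `P` is at least `j` times the order of one of the functions in `S`, minus
`∑ i, μ i * δ i P`, where `δ i P` is the coefficient of `Δ i`, for all prime divisors `P` (all
divisorial places `P` of `K`). Here `A` is the divisor which is generated by the finite set `S` of
functions; `A = 0` if `S = {1}`. -/
def IsSection (S : Finset K) (μ : Fin p →₀ ℕ) (j : ℕ) (ω : (Fin N → Derivation ℂ K K) → K) :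
    Prop :=
  IsPluri (∑ i, μ i) ω ∧ ∀ P : Place ℂ K, Divisorial N P → ∀ D : Fin N → Derivation ℂ K K,
    (∀ c, DerReg P (D c)) → ω D = 0 ∨ ∃ s ∈ S, s ≠ 0 ∧
      (j : ℚ) * P.ord s - ∑ i, (μ i : ℚ) * δ i P ≤ P.ord (ω D)

/-- The real combination `∑ i, lam i (K + Δ i)` is pseudo-effective: there is a divisor `A` such that
for all `M` a positive multiple `j (M ∑ i, lam i (K + Δ i) + A)` has a nonzero section, after a
change of the coefficients `j M lam i` by at most `j`. -/
def Pseudoeffective (lam : Fin p → ℝ) : Prop :=
  ∃ S : Finset K, ∀ M : ℕ, ∃ j : ℕ, 1 ≤ j ∧ ∃ μ : Fin p →₀ ℕ,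
    (∀ i, |(μ i : ℝ) - j * M * lam i| ≤ j) ∧ ∃ η, η ≠ 0 ∧ IsSection N δ S μ j η

/-- The sections `ω b` of `∑ i, g b i (K + Δ i)` compute all asymptotic orders: for every prime
divisor `P`, divisor `A` and vector fields `D` there is a constant `C` such that for every section
`η` of `∑ i, μ i (K + Δ i) + j A`, `μ ≠ 0`, with `η D ≠ 0` there is a monomial in the `ω b`, with
exponents `e b`, whose degree differs from `μ` by at most `C (j + 1)`, and whose order at `P` (the
order of the value at `D`) is at most that of `η`, plus `C (j + 1)`. -/
def ComputeOrders {r : ℕ} (g : Fin r → Fin p →₀ ℕ)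
    (ω : Fin r → (Fin N → Derivation ℂ K K) → K) : Prop :=
  ∀ (P : Place ℂ K) (S : Finset K) (D : Fin N → Derivation ℂ K K), ∃ C : ℕ,
    ∀ (μ : Fin p →₀ ℕ) (j : ℕ) (η : (Fin N → Derivation ℂ K K) → K), μ ≠ 0 →
      IsSection N δ S μ j η → η D = 0 ∨ ((∀ b, ω b D ≠ 0) ∧ ∃ e : Fin r → ℕ,
        (∀ i, |∑ b, (e b : ℤ) * g b i - μ i| ≤ C * (j + 1)) ∧
        ∑ b, (e b : ℤ) * P.ord (ω b D) ≤ P.ord (η D) + C * (j + 1))

end sections

/-- **The geography of models.** Let `K` be the function field of an abelian cover of the projective
`n`-space which is branched along `n + 1` hypersurfaces `F k = 0` with normal crossings, and let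
`Δ 1, ..., Δ p` be the boundaries which are given by `c`: the coefficient of `Δ i` along a prime
divisor `P` is `c i v`, where `v` is the vector of the multiplicities of the hypersurfaces along `P`.
There are finitely many nonzero sections `ω b` of divisors `∑ i, g b i (K + Δ i)` which compute the
asymptotic orders of all combinations of the `K + Δ i` at all prime divisors, and the cone of the
pseudo-effective real combinations is generated by the vectors `g b`. -/
theorem result (n R p : ℕ) (hn : 1 ≤ n) (d : Fin (n + 1) → ℕ) (hd : ∀ k, 1 ≤ d k)
    (hsum : n + 1 ≤ ∑ k, d k)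
    (F : Fin (n + 1) → MvPolynomial (Fin (n + 1)) ℂ) (hF : ∀ k, (F k).IsHomogeneous (d k))
    (hs : NormalCrossings F) (m : Fin R → ℕ) (hm : ∀ j, 1 ≤ m j) (a : Fin R → Fin (n + 1) → ℕ)
    (hdiv : ∀ j, m j ∣ ∑ k, a j k * d k)
    (K : Type) [Field K] [Algebra ℂ K] (x : Fin (n + 1) → K) (hx0 : x 0 ≠ 0)
    (hbas : IsTranscendenceBasis ℂ (affine x)) (z : Fin R → K)
    (hz : ∀ j, z j ^ m j = ∏ k, (aeval x (F k) / x 0 ^ d k) ^ a j k)
    (hgen : IntermediateField.adjoin ℂ (Set.range (affine x) ∪ Set.range z) = ⊤)
    (c : Fin p → (Fin (n + 1) → ℕ) → ℚ) (hc : AreBoundaries m a c)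
    (δ : Fin p → Place ℂ K → ℚ) (hδ : ∀ i P, δ i P = c i (multiplicities F d x P)) :
    ∃ (r : ℕ) (g : Fin r → Fin p →₀ ℕ) (ω : Fin r → (Fin n → Derivation ℂ K K) → K),
      (∀ b, g b ≠ 0 ∧ ω b ≠ 0 ∧ IsSection n δ {1} (g b) 0 (ω b)) ∧
      ComputeOrders n δ g ω ∧
      ∀ lam : Fin p → ℝ, (∀ i, 0 ≤ lam i) →
        (Pseudoeffective n δ lam ↔
          ∃ t : Fin r → ℝ, (∀ b, 0 ≤ t b) ∧ ∀ i, lam i = ∑ b, t b * g b i) := by
  obtain ⟨e, rfl⟩ : ∃ e, n = e + 1 := ⟨n - 1, by omega⟩
  obtain ⟨r, g, ω, h1, h2, h3⟩ := Pool.Agent.Q57.GG.main_gg hx0 hbas hd hF hs hm hz hdiv hgen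
    hsum hc.zero hc.le_one hc.ray hc.finite hδ
  exact ⟨r, g, ω, fun b => ⟨(h1 b).1, (h1 b).2.1, Pool.Agent.Q57.GG.msec_asec (h1 b).2.2⟩, h2, h3⟩

end Pool.Agent.Results.MP_fa3f7f_ag.GeographyOfModels
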