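import Pool.Agent.Q47.TK.Zar2

/-!
# Good minimal models for pairs on toric bundles over quotients of complex tori

Let `X = V / Γ` be the quotient of a complex torus of any dimension by any finite group (with or
without fixed points and reflections, projective or not), and let `Y → X` be a toric bundle: a
locally trivial bundle whose fibre is a smooth complete toric variety, twisted by arbitrary line
bundles `c_i` on `X` (for example the projective bundle of a direct sum of line bundles). Let `Δ` be
any effective `ℚ`-divisor on `Y` such that the pair `(Y_v, Δ_v)` is log canonical for one fibre `Y_v`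
of `Y → X` (no condition over the other points, and `Δ` need not be invariant under the torus). Let
`D = m (K_Y + Δ)` be integral.

Let `P` be the set of the real divisors `∑ β_i D_i`, `β_i ≥ 0`, of the class of `D` on the fibre
such that the difference of `D` and `∑ β_i D_i` is a nef class of `X`. If `P` is empty, then `K_Y + Δ`
is not pseudo-effective: for each line bundle `A` the line bundles `k D + A` have no nonzero sections
for large `k`. Otherwise there are `N` and finitely many sections `G_j` of `N D` such that

* each `G_j = s_j x ^ a_j` is a monomial in the coordinates of the fibre, with `a_j / N ∈ P`,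
* on each compact set `∏ |x_i| ^ (N β_i) ≤ C ∑ |G_j|` for all `β ∈ P`,
* for each line bundle `A` on `Y` there is `C` such that for all `k` and all sections `G` of `k D + A`
  one has `|G| ^ N ∏ |x_i| ^ C ≤ C' (∑ |G_j|) ^ k` on each compact set.

In other words, for each divisorial valuation `w` over `Y` the sections `G` of `k D + A` have the
order `w(G) ≥ (k / N) min_j w(G_j) - (C / N) w(∏ x_i)`, where `C` does not depend on `k`, on `G` and
on `w`, and `min_j w(G_j) = N min_{β ∈ P} w(∏ x_i ^ β_i)`. So the asymptotic order of vanishing of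
`D` along `w` (and that of `D + ε A` for `ε → 0`) is `min_j w(G_j) / N`, for all `w` at the same time,
and after the blow-up of the (locally monomial) ideal of the `G_j` one has the Nakayama-Zariski
decomposition `N D = P + E` with base point free `P`. For log canonical pairs such a decomposition
is equivalent to the existence of a good minimal model (Birkar-Hu).

`IsSmoothFan`, `LinEquiv`, `IsSection`, `IsLogPluricanonical` and `IsLogCanonical` are defined in
`Pool.Agent.Q47.TB.Defs`, `IsTorusQuotient` and `LineBundle` (given by a factor of automorphy `L.e`)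
in `Pool.Agent.W594.SYZ.Defs2`, `IsChernForm` and `IsNefForm` in `Pool.Agent.W594.SYZ.TQDefs` and
`IsRamification` in `Pool.Agent.TH735.AQ.MirDefs`.

The proof. Let `Q` be the semigroup of the pairs `(k, α)` such that `∑ α_i D_i`, `α_i ≥ 0`, is of the
class of `k D` on the fibre and the difference is a nef class of `X`. The class of `K_Y + Δ` on the
base is nonnegative in the directions fixed by the reflections, and on a root of a reflection
nonnegativity is an inequality with integral coefficients; hence `Q` is finitely generated, and the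
line bundles on `X` of its generators are semiample (Newton polytopes and abundance for torus
quotients with arbitrary boundary). Their global sections give the `G_j`. The classes of the
coefficients of a section of `k D + A` differ from elements of `Q` by a finite number of vectors.
-/

set_option autoImplicit false

universe u w

namespace Pool.Agent.Results.MP_fa3f7f_ag.ToricBundleMinimalModels

open Pool.Agent.W594.SYZ2 Pool.Agent.TH735.AQ Q47.TB MvPolynomial

variable {V : Type u} [NormedAddCommGroup V] [NormedSpace ℂ V] {Γ : Subgroup (V ≃ᵃ[ℂ] V)}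
  {ι : Type w} [Fintype ι] {n : ℕ}

/-- The polytope `P` of the real divisors `∑ β_i D_i`, `β_i ≥ 0`, of the class of `d` on the fibre
such that the class `H - ∑ β_i Hc_i` on the base is nef. -/
def polytope (r : ι → Fin n → ℤ) (d : ι → ℤ) (H : V → V → ℂ) (Hc : ι → V → V → ℂ) :
    Set (ι → ℝ) :=
  {β | (∀ i, 0 ≤ β i) ∧ (∃ q : Fin n → ℝ, ∀ i, β i = d i + ∑ k, q k * r i k) ∧
    IsNefForm fun v w => H v w - ∑ i, (β i : ℂ) * Hc i v w}

/-- Let `X = V / Γ` be a torus quotient, let `ρ` define the ramification divisor of `V → X`, let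
`Y → X` be the toric bundle given by a smooth complete fan with the rays `r i` and by line bundles
`c i` on `X` with Chern forms `Hc i`, let `F` define the effective divisor `m Δ` on `Y`, and let
`D = O_Y(m (K_Y + Δ))` be the line bundle on `Y` given by the class of `∑ (d_i - m) D_i` and by `L`.
Assume that the fibre `(Y_v, Δ_v)` is log canonical for some `v = v₀`. Let `P` be the polytope of
`D`.

(1) If `P` is empty, then for each line bundle `A = O_Y(b; M)` on `Y` the line bundle `k D + A` has
no nonzero sections for large `k`.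

(2) Otherwise there are `N ≥ 1` and finitely many sections `G_j = s_j ∏ x_i ^ a_ij` of `N D` with
`a_j / N ∈ P`, such that on each compact set `∏ |x_i| ^ (N β_i) ≤ C ∑ |G_j|` for all `β ∈ P`, and for
each line bundle `A = O_Y(b; M)` there is a number `C` such that on each compact set
`|G'| ^ N ∏ |x_i| ^ C ≤ C' (∑ |G_j|) ^ k` for all `k ≥ 1` and all sections `G'` of `k D + A`. -/
theorem result [FiniteDimensional ℂ V] (Γ : Subgroup (V ≃ᵃ[ℂ] V)) (hΓ : IsTorusQuotient Γ)
    (ρ : V → ℂ) (hρ : IsRamification Γ ρ)
    (n : ℕ) (r : ι → Fin n → ℤ) (S : Set (Set ι)) (hS : IsSmoothFan r S)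
    (c : ι → LineBundle Γ) (Hc : ι → V → V → ℂ) (hc : ∀ i, IsChernForm (c i) (Hc i))
    (m : ℕ) (hm : 1 ≤ m) (d : ι → ℤ) (F : V → MvPolynomial ι ℂ)
    (L : LineBundle Γ) (H : V → V → ℂ) (hL : IsChernForm L H)
    (hF : Q47.TB.IsLogPluricanonical r c m ρ d F L)
    (v₀ : V) (hlc : IsLogCanonical S m (F v₀)) :
    (polytope r (fun i => d i - m) H Hc = ∅ →
      ∀ (M : LineBundle Γ) (HM : V → V → ℂ), IsChernForm M HM → ∀ b : ι → ℤ,
        ∃ k₀ : ℕ, ∀ k : ℕ, k₀ ≤ k → ∀ G : V → MvPolynomial ι ℂ,
          IsSection r c (fun i => k * (d i - m) + b i) (fun γ v => L.e γ v ^ k * M.e γ v) G →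
            ∀ v, G v = 0) ∧
    (polytope r (fun i => d i - m) H Hc ≠ ∅ →
      ∃ (N t : ℕ) (G : Fin t → V → MvPolynomial ι ℂ), 1 ≤ N ∧
        (∀ j, IsSection r c (fun i => N * (d i - m)) (fun γ v => L.e γ v ^ N) (G j)) ∧
        (∀ j, ∃ (a : ι → ℕ) (s : V → ℂ),
          (fun i => (a i : ℝ) / N) ∈ polytope r (fun i => d i - m) H Hc ∧
            ∀ v x, eval x (G j v) = s v * ∏ i, x i ^ a i) ∧
        (∀ K : Set (V × (ι → ℂ)), IsCompact K → ∃ C : ℝ, ∀ p ∈ K,
          ∀ β ∈ polytope r (fun i => d i - m) H Hc,
            ∏ i, ‖p.2 i‖ ^ (N * β i : ℝ) ≤ C * ∑ j, ‖eval p.2 (G j p.1)‖) ∧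
        ∀ (M : LineBundle Γ) (HM : V → V → ℂ), IsChernForm M HM → ∀ b : ι → ℤ, ∃ C : ℕ,
          ∀ k : ℕ, 1 ≤ k → ∀ G' : V → MvPolynomial ι ℂ,
            IsSection r c (fun i => k * (d i - m) + b i)
              (fun γ v => L.e γ v ^ k * M.e γ v) G' →
              ∀ K : Set (V × (ι → ℂ)), IsCompact K → ∃ C' : ℝ, ∀ p ∈ K,
                ‖eval p.2 (G' p.1)‖ ^ N * ∏ i, ‖p.2 i‖ ^ C ≤
                  C' * (∑ j, ‖eval p.2 (G j p.1)‖) ^ k) := by
  have hT : ∀ α ∈ (F v₀).support, ∃ v, coeff α (F v) ≠ 0 :=
    fun _ hα => ⟨v₀, mem_support_iff.1 hα⟩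
  refine ⟨fun hP M HM hM b => ?_, fun hP => ?_⟩
  · rcases Q47.TK.growth_final hΓ hρ hS hc hL hF (F v₀).support hT (weights_of_lc hm hlc) with
      ⟨-, -, h2⟩ | ⟨β₀, hβ₀, -⟩
    · obtain ⟨k₀, hk₀⟩ := h2 M HM hM b
      refine ⟨k₀, fun k hk G hG v => ?_⟩
      have h3 : G ∈ Q47.TK.secY r c (fun i => k * (d i - m) + b i) (tensor (L.pow k) M).e := hG
      rw [hk₀ k hk, Submodule.mem_bot] at h3
      rw [h3]
      rfl
    · have h3 : β₀ ∈ polytope r (fun i => d i - m) H Hc := hβ₀
      rw [hP] at h3
      exact absurd h3 (Set.notMem_empty _)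
  · exact Q47.TK.zar hΓ hρ hS hc hL hF (F v₀).support hT (weights_of_lc hm hlc)
      (Set.nonempty_iff_ne_empty.2 hP)

end Pool.Agent.Results.MP_fa3f7f_ag.ToricBundleMinimalModels
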