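import Pool.Agent.Q57.UG.Top

/-!
# Uniform finiteness of models for toroidal pairs on arbitrary covers

Let `V i`, `i = 1, ..., r`, be a projective variety of dimension `n i ≥ 1` in the projective
`M i`-space, and let `F (i, k)`, `k = 0, ..., n i`, be forms of degrees `d (i, k)` which have no common
zero on `V i`. Let `K` be any finite extension of the function field of the product
`V = V 1 × ... × V r`, of any degree and with any Galois group. The homogeneous coordinates of the
generic point of `V i` are `x i j`, `j = 0, ..., M i`. Suppose that the canonical divisor of `V i` is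
the multiple `κ i` of the hyperplane section: there is a rational differential form `Ω` of the maximal
degree such that the forms `Ω * ∏ i, (x i j) ^ (κ i)`, where `x i j` is a coordinate which is not zero
at a given point, are local generators of the canonical bundle of `V`. So
`logDiscrepancy F d κ x Ω P` is the log discrepancy of the pair `(V, ∑ (i, k), (F (i, k) = 0))` along
the prime divisor `P` over `V` (a divisorial place of `K`). In the theorem `Ω` may be any nonzero
rational form and `κ i` any integers.

**The pairs.** A prime divisor `P` has the vector `multiplicities F d x P` of the multiplicities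
`v (i, k)` of the hypersurface sections `F (i, k) = 0` along `P`. It is a vector of a face: for every
`i` some `v (i, k)` is zero. The divisors `K + Δ 1, ..., K + Δ p` are given by functions `ψ i` on
these vectors: the log discrepancy of `(X, Δ i)` along any prime divisor `P` over `X` is
`ψ i v + logDiscrepancy F d κ x Ω P`, `v` the vector of `P`, so that the `coefficient` of `P` in the
pullback of `K + Δ i` is `δ i P = 1 - ψ i v - logDiscrepancy F d κ x Ω P`. The functions `ψ i` are
homogeneous and, for example, linear on the cones of a subdivision of the fan of the faces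
(`AreLogDiscrepancies`): these are the toroidal divisors on the toroidal modifications `X` of the
covers of `V` which are unramified outside the zero sets of the forms, with arbitrary rational
coefficients (log canonical if `ψ i ≥ 0`). The `K + Δ i` are `ℚ`-linearly equivalent to pullbacks of
toric divisors under a finite map to a product of weighted projective spaces. The pairs are explained
in detail in `MP_e23cd6_ag.UniformAbundanceOfCovers`.

**The theorem.** For real `lam i ≥ 0` let `D lam = ∑ i, lam i (K + Δ i)`. There are an integer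
`T ≥ 1` and finitely many rational linear forms `h i` on `ℝ ^ p`, which cut `ℝ ^ p` into finitely many
cells, which depend only on the dimensions `n i`, the degrees `d (i, k)`, the integers `κ i` and the
functions `ψ i`, such that the following holds for all `V i`, all forms `F (i, k)` of these degrees,
all fields `K` and all forms `Ω`.

* (the cones) The cone of the `lam` such that `D lam` is pseudo-effective and the cone of the `lam`
  such that `D lam` is nef are unions of closed cells.
* (asymptotic orders) For every prime divisor `P` over `V` and every frame `D` of rational vector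
  fields there is a function `σ` which is linear on every closed cell of the pseudo-effective cone
  and whose value `σ lam` is the asymptotic order of vanishing of `D lam` along `P`: all sections of
  divisors which are asymptotically close to `M (D lam)`, also after the addition of multiples
  `j A`, `j ≤ θ M`, of any divisor `A`, have at `P` at least the order `(σ lam - ε) M`
  (so this is Nakayama's `σ_P`), and there are sections, without the addition of any `A`, with order
  at most `(σ lam + ε) M`.
* (exact orders) For all integral vectors `μ`, if `D μ` is pseudo-effective, then for every `P` there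
  is a section of `T (D μ)` whose order at `P` is exactly the asymptotic order `T * σ μ`. The integer
  `T` depends neither on `μ` nor on `P`, and not on the variety.

Interpretation. Let `(X, Δ)` be the pair with a rational boundary `Δ = ∑ i, (μ i / q) Δ i` in the
polytope of the boundaries `Δ i`, `q = ∑ i, μ i`, `K + Δ` pseudo-effective. By the last statement the
divisor `T q (K + Δ)` has at all divisors `P` over `X` a section of the minimal possible order, so
the mobile part of `T q (K + Δ)` is base point free on a resolution: the positive part of the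
Zariski decomposition of `T q (K + Δ)` is an integral base point free divisor. The ample model of
`(X, Δ)` (and every good minimal model) is determined by the orders of these sections, and it
depends only on the cell of `μ`. So there are only finitely many ample models of the pairs `(X, Δ)`,
and every minimal model program with scaling in the polytope of the `Δ i` passes through finitely
many models only; their number and the multiple `T` are bounded uniformly for all varieties `X` over
the varieties `V` with the same numerical data, in particular for all covers of any degree. For klt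
pairs with big boundaries the finiteness of models is known (Birkar, Cascini, Hacon and McKernan).

The results `MP_badc2d_ag.UniformGoodMinimalModels` and `MP_89a3f8_ag.ScalingThresholds` concern
abelian covers of products of projective spaces which are branched along one hypersurface of each
factor, and abelian covers of one projective space, with constants which depend on the variety.
-/

set_option autoImplicit false

open FF MvPolynomial Pool.Agent.W602.GT

namespace Pool.Agent.Results.MP_fa3f7f_ag.UniformGeography

/-- The index `(i, k)` of the `n i + 1` hypersurface sections of the variety `V i`. -/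
abbrev Hypersurface {r : ℕ} (n : Fin r → ℕ) := (i : Fin r) × Fin (n i + 1)

section places

variable {r N p : ℕ} {n M : Fin r → ℕ} {K : Type} [Field K] [Algebra ℂ K]

/-- The ratios of the forms `F (i, k + 1)` and `F (i, 0)`, raised to powers of the same degree. -/
noncomputable def ratio (F : ∀ b : Hypersurface n, MvPolynomial (Fin (M b.1 + 1)) ℂ)
    (d : Hypersurface n → ℕ) (x : ∀ i, Fin (M i + 1) → K) (b : (i : Fin r) × Fin (n i)) : K :=
  aeval (x b.1) (F ⟨b.1, b.2.succ⟩) ^ d ⟨b.1, 0⟩ /
    aeval (x b.1) (F ⟨b.1, 0⟩) ^ d ⟨b.1, b.2.succ⟩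

/-- The forms `F (i, k)` have no common zero on `V i`, the variety of the points at which all forms
vanish which vanish at the generic point `x i`. -/
def NoCommonZeros (F : ∀ b : Hypersurface n, MvPolynomial (Fin (M b.1 + 1)) ℂ)
    (x : ∀ i, Fin (M i + 1) → K) : Prop :=
  ∀ i, ∀ y : Fin (M i + 1) → ℂ, y ≠ 0 →
    (∀ (G : MvPolynomial (Fin (M i + 1)) ℂ) (m : ℕ), G.IsHomogeneous m → aeval (x i) G = 0 →
      eval y G = 0) → ∃ k, eval y (F ⟨i, k⟩) ≠ 0

/-- The minimal order at `P` of the homogeneous coordinates `y` of one factor. -/
noncomputable def minimalOrder {k : ℕ} (y : Fin (k + 1) → K) (P : Place ℂ K) : ℤ :=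
  Finset.univ.inf' Finset.univ_nonempty fun j => P.ord (y j)

/-- The multiplicities of the hypersurface sections `F (i, k) = 0` along the prime divisor `P`; the
`x i j` are the homogeneous coordinates of the `i`-th factor, which are divided by one of minimal
order at `P`. -/
noncomputable def multiplicities (F : ∀ b : Hypersurface n, MvPolynomial (Fin (M b.1 + 1)) ℂ)
    (d : Hypersurface n → ℕ) (x : ∀ i, Fin (M i + 1) → K) (P : Place ℂ K) (b : Hypersurface n) :
    ℕ :=
  (P.ord (aeval (x b.1) (F b)) - d b * minimalOrder (x b.1) P).toNat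

/-- The order of the form `Ω` along `P`: the minimal order of its values at vector fields which are
regular at `P`. -/
noncomputable def formOrder (Ω : (Fin N → Derivation ℂ K K) → K) (P : Place ℂ K) : ℤ :=
  sInf {k : ℤ | ∃ D : Fin N → Derivation ℂ K K, (∀ c, DerReg P (D c)) ∧ Ω D ≠ 0 ∧
    P.ord (Ω D) = k}

/-- The log discrepancy along `P` of the product of the `V i`, with the boundary
`∑ (i, k), (F (i, k) = 0)`, if the forms `Ω * ∏ i, (x i j) ^ (κ i)` are local generators of the
canonical bundle, `x i j` a coordinate of minimal order at `P`. -/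
noncomputable def logDiscrepancy (F : ∀ b : Hypersurface n, MvPolynomial (Fin (M b.1 + 1)) ℂ)
    (d : Hypersurface n → ℕ) (κ : Fin r → ℤ) (x : ∀ i, Fin (M i + 1) → K)
    (Ω : (Fin N → Derivation ℂ K K) → K) (P : Place ℂ K) : ℤ :=
  formOrder Ω P + 1 - ∑ b, (multiplicities F d x P b : ℤ) + ∑ i, κ i * minimalOrder (x i) P

/-- The coefficient of `P` in the pullback of `K + Δ`, for the divisor with the function `ψ`: the log
discrepancy along `P` is `ψ v + logDiscrepancy F d κ x Ω P`, `v` the vector of the multiplicities. -/
noncomputable def coefficient (F : ∀ b : Hypersurface n, MvPolynomial (Fin (M b.1 + 1)) ℂ)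
    (d : Hypersurface n → ℕ) (κ : Fin r → ℤ) (x : ∀ i, Fin (M i + 1) → K)
    (Ω : (Fin N → Derivation ℂ K K) → K) (ψ : (Hypersurface n → ℕ) → ℚ) (P : Place ℂ K) : ℚ :=
  1 - ψ (multiplicities F d x P) - logDiscrepancy F d κ x Ω P

/-- The vectors of the faces: for every `i` one of the entries is zero. -/
def IsFaceVector (v : Hypersurface n → ℕ) : Prop := ∀ i, ∃ k, v ⟨i, k⟩ = 0

/-- The functions `ψ i` on the vectors of the faces are homogeneous, and for a finite set `T` of
nonzero vectors of the faces every vector `v` of a face is a nonnegative combination of the vectors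
in `T`, such that all `ψ i v` are at most the combinations of the values at the vectors in `T` (for
functions which are linear on the cones of a fan let `T` be the generators of the rays). -/
structure AreLogDiscrepancies (ψ : Fin p → (Hypersurface n → ℕ) → ℚ) : Prop where
  homogeneous : ∀ i v (k : ℕ), 1 ≤ k → IsFaceVector v → ψ i (k • v) = k * ψ i v
  finite : ∃ T : Finset (Hypersurface n → ℕ), (∀ s ∈ T, IsFaceVector s ∧ s ≠ 0) ∧
    ∀ v, IsFaceVector v → ∃ w : (Hypersurface n → ℕ) → ℚ, (∀ s, 0 ≤ w s) ∧
      (∀ b, (v b : ℚ) = ∑ s ∈ T, w s * s b) ∧ ∀ i, ψ i v ≤ ∑ s ∈ T, w s * ψ i s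

end places

section sections

variable {K : Type} [Field K] [Algebra ℂ K] {p : ℕ} (N : ℕ) (δ : Fin p → Place ℂ K → ℚ)

/-- `ω` is a section of `∑ i, μ i (K + Δ i) + j A`: a rational section of the power of the canonical
bundle with the exponent `∑ i, μ i` (`IsPluri`: a function of `N` rational vector fields which is
multiplied by the power of `det B` under a linear substitution `B`) whose order on the vector fields
which are regular at `P` is at least `j` times the order of one of the functions in `S`, minus
`∑ i, μ i * δ i P`, where `δ i P` is the coefficient of `P` in the pullback of `K + Δ i`, for all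
prime divisors `P` (all divisorial places `P` of `K`). Here `A` is the divisor which is generated by
the finite set `S` of functions; `A = 0` if `S = {1}`. -/
def IsSection (S : Finset K) (μ : Fin p →₀ ℕ) (j : ℕ) (ω : (Fin N → Derivation ℂ K K) → K) :
    Prop :=
  IsPluri (∑ i, μ i) ω ∧ ∀ P : Place ℂ K, Divisorial N P → ∀ D : Fin N → Derivation ℂ K K,
    (∀ c, DerReg P (D c)) → ω D = 0 ∨ ∃ s ∈ S, s ≠ 0 ∧
      (j : ℚ) * P.ord s - ∑ i, (μ i : ℚ) * δ i P ≤ P.ord (ω D)

/-- The real combination `∑ i, lam i (K + Δ i)` is pseudo-effective: there is a divisor `A` such that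
for all `M` a positive multiple `j (M ∑ i, lam i (K + Δ i) + A)` has a nonzero section, after a
change of the coefficients `j M lam i` by at most `j`. -/
def Pseudoeffective (lam : Fin p → ℝ) : Prop :=
  ∃ S : Finset K, ∀ M : ℕ, ∃ j : ℕ, 1 ≤ j ∧ ∃ μ : Fin p →₀ ℕ,
    (∀ i, |(μ i : ℝ) - j * M * lam i| ≤ j) ∧ ∃ η, η ≠ 0 ∧ IsSection N δ S μ j η

/-- The real combination `∑ i, lam i (K + Δ i)` is nef: there is a divisor `A` such that for all
`M ≥ 1` a positive multiple `j (M ∑ i, lam i (K + Δ i) + A)` has no base points: for every prime
divisor `P` there is, after a change of the coefficients `j M lam i` by at most `j`, a section which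
does not vanish at `P`. -/
def Nef (lam : Fin p → ℝ) : Prop :=
  ∃ S : Finset K, (∃ s ∈ S, s ≠ 0) ∧ ∀ M : ℕ, 1 ≤ M → ∃ j : ℕ, 1 ≤ j ∧
    ∀ P : Place ℂ K, Divisorial N P → ∃ μ : Fin p →₀ ℕ, (∀ i, |(μ i : ℝ) - j * M * lam i| ≤ j) ∧
      ∃ η, IsSection N δ S μ j η ∧ ∃ D, (∀ c, DerReg P (D c)) ∧ η D ≠ 0 ∧ ∀ s ∈ S, s ≠ 0 →
        (P.ord (η D) : ℚ) ≤ j * P.ord s - ∑ i, (μ i : ℚ) * δ i P

/-- `s` is the asymptotic order of vanishing of `∑ i, lam i (K + Δ i)` along `P`, where the orders of
the sections are those of their values at the vector fields `D`: the orders of all sections of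
divisors `∑ i, μ i (K + Δ i) + j A`, `μ ≠ 0`, which are close to `M ∑ i, lam i (K + Δ i)` are at
least `(s - ε) M`, and there are such sections, with `A = 0`, of order at most `(s + ε) M`. -/
def IsAsymptoticOrder (P : Place ℂ K) (D : Fin N → Derivation ℂ K K) (lam : Fin p → ℝ) (s : ℝ) :
    Prop :=
  (∀ ε : ℝ, 0 < ε → ∀ S : Finset K, ∃ θ : ℝ, 0 < θ ∧ ∃ M₀ : ℕ, ∀ M : ℕ, M₀ ≤ M →
    ∀ (μ : Fin p →₀ ℕ) (j : ℕ) (η : (Fin N → Derivation ℂ K K) → K), μ ≠ 0 →
      (∀ i, |(μ i : ℝ) - M * lam i| ≤ θ * M) → (j : ℝ) ≤ θ * M → IsSection N δ S μ j η →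
        η D ≠ 0 → (s - ε) * M ≤ P.ord (η D)) ∧
  ∀ ε : ℝ, 0 < ε → ∀ M₀ : ℕ, ∃ M : ℕ, M₀ ≤ M ∧ ∃ (μ : Fin p →₀ ℕ)
    (η : (Fin N → Derivation ℂ K K) → K), (∀ i, |(μ i : ℝ) - M * lam i| ≤ ε * M) ∧
      IsSection N δ {1} μ 0 η ∧ η D ≠ 0 ∧ (P.ord (η D) : ℝ) ≤ (s + ε) * M

end sections

/-- The point `lam'` lies in the closure of the cell of `lam`, for the arrangement of the hyperplanes
which are given by the linear forms `h i`. -/
def InClosedCell {p s : ℕ} (h : Fin s → Fin p → ℚ) (lam lam' : Fin p → ℝ) : Prop :=
  ∀ i, (0 ≤ ∑ k, lam k * h i k → 0 ≤ ∑ k, lam' k * h i k) ∧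
    (∑ k, lam k * h i k ≤ 0 → ∑ k, lam' k * h i k ≤ 0)

/-- **The main theorem.** For given dimensions `n i`, degrees `d (i, k)`, integers `κ i` and functions
`ψ i` there are an integer `T ≥ 1` and finitely many rational linear forms `h i` on the space of the
combinations `∑ i, lam i (K + Δ i)` such that for all projective varieties `V i` of dimension `n i`
with `n i + 1` forms of the degrees `d (i, k)` without common zeros, all finite extensions `K` of the
function field of the product and all forms `Ω` the cones of the pseudo-effective and of the nef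
combinations are unions of closed cells, the asymptotic orders of vanishing along every prime divisor
are linear on the closed cells of the pseudo-effective cone, and for the pseudo-effective integral
combinations they are attained by sections of the multiples by `T`. -/
theorem result (r N p : ℕ) (n : Fin r → ℕ) (hn : ∀ i, 1 ≤ n i) (hN1 : 1 ≤ N)
    (hN : N = ∑ i, n i) (d : Hypersurface n → ℕ) (hd : ∀ b, 1 ≤ d b) (κ : Fin r → ℤ)
    (ψ : Fin p → (Hypersurface n → ℕ) → ℚ) (hψ : AreLogDiscrepancies ψ) :
    ∃ (T s : ℕ) (h : Fin s → Fin p → ℚ), 1 ≤ T ∧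
      ∀ (K : Type) [Field K] [Algebra ℂ K] [Algebra.EssFiniteType ℂ K] (M : Fin r → ℕ)
        (F : ∀ b : Hypersurface n, MvPolynomial (Fin (M b.1 + 1)) ℂ)
        (x : ∀ i, Fin (M i + 1) → K) (Ω : (Fin N → Derivation ℂ K K) → K)
        (δ : Fin p → Place ℂ K → ℚ),
        (∀ b, (F b).IsHomogeneous (d b)) → (∀ i j, x i j ≠ 0) → NoCommonZeros F x →
        IsTranscendenceBasis ℂ (ratio F d x) → IsPluri 1 Ω → Ω ≠ 0 →
        (∀ i, δ i = coefficient F d κ x Ω (ψ i)) →
        (∀ lam lam' : Fin p → ℝ, (∀ i, 0 ≤ lam i) → Pseudoeffective N δ lam →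
          InClosedCell h lam lam' →
            (∀ i, 0 ≤ lam' i) ∧ Pseudoeffective N δ lam' ∧ (Nef N δ lam → Nef N δ lam')) ∧
        ∀ (P : Place ℂ K) (D : Fin N → Derivation ℂ K K),
          (∃ S μ j η, μ ≠ 0 ∧ IsSection N δ S μ j η ∧ η D ≠ 0) →
          ∃ σ : (Fin p → ℝ) → ℝ,
            (∀ lam, (∀ i, 0 ≤ lam i) → Pseudoeffective N δ lam →
              IsAsymptoticOrder N δ P D lam (σ lam)) ∧
            (∀ lam (c : ℝ), (∀ i, 0 ≤ lam i) → Pseudoeffective N δ lam → 0 ≤ c →
              σ (c • lam) = c * σ lam) ∧
            (∀ lam lam₁ lam₂, (∀ i, 0 ≤ lam i) → Pseudoeffective N δ lam →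
              InClosedCell h lam lam₁ → InClosedCell h lam lam₂ →
                σ (lam₁ + lam₂) = σ lam₁ + σ lam₂) ∧
            ∀ μ : Fin p →₀ ℕ, Pseudoeffective N δ (fun i => (μ i : ℝ)) →
              ∃ η, IsSection N δ {1} (T • μ) 0 η ∧ η D ≠ 0 ∧
                (P.ord (η D) : ℝ) = T * σ fun i => (μ i : ℝ) := by
  obtain ⟨T0, hT0, hT1⟩ := hψ.finite
  obtain ⟨_, _, s, h, T, _, hT, H⟩ := Pool.Agent.Q57.UG.top_u hn hN1 hN hd κ (p := p) (ψ := ψ)
    ⟨T0, hψ.homogeneous, hT0, hT1⟩
  refine ⟨T, s, h, hT, ?_⟩
  intro K _ _ _ M F x Ω δ hF hx hno hbas hΩ hΩ0 hδ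
  obtain ⟨-, h2, -, h4⟩ := H K M F x Ω δ hF hx hno hbas hΩ hΩ0 fun i P => congrFun (hδ i) P
  refine ⟨h2, fun P D hD => ?_⟩
  obtain ⟨σ, h5, h6, h7, h8⟩ := h4 P D hD
  refine ⟨σ, fun lam hl hp => ?_, h6, h7, fun μ hμ => ?_⟩
  · obtain ⟨h9, h10⟩ := h5 lam hl hp
    refine ⟨h9, fun ε hε M₀ => ?_⟩
    obtain ⟨M, hM, μ, η, h11, h12, h13, h14⟩ := h10 ε hε M₀
    exact ⟨M, hM, μ, η, h11, Pool.Agent.Q57.GG.msec_asec h12, h13, h14⟩
  · obtain ⟨η, h9, h10, h11⟩ := h8 μ hμ
    exact ⟨η, Pool.Agent.Q57.GG.msec_asec h9, h10, h11⟩

end Pool.Agent.Results.MP_fa3f7f_ag.UniformGeography
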